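import Pool.Agent.E8helper36.CF.Stm

/-!
# Project CF (MP_717b2e_co), piece KST
-/

set_option autoImplicit false

namespace Pool.Agent.E8helper10.CF

open Pool.Agent.E8helper36.CF

variable {n : ℕ}

/-- if `b` is the partner of the top point `x`, then no edge leads from the points after `b` to the
points up to `b` -/
lemma top_gap (hT : S_TOP) {M : Matching n} {x i : Fin (2 * n)} (hx : Top M x) (hi : M.m x < i) :
    M.m x < M.m i := by
  by_contra hc
  rw [not_lt] at hc
  have hi' : (M.m x : ℕ) < i := hi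
  have hlt : (M.m x : ℕ) + 1 < 2 * n := by have := i.2; omega
  have h1 := (hT n M x hx).2.2 ⟨(M.m x : ℕ) + 1, hlt⟩ rfl (M.m i) (by
    rw [Fin.lt_def]; have : (M.m i : ℕ) ≤ M.m x := hc; simp only; omega)
  rw [M.inv, Fin.lt_def] at h1
  simp only at h1
  omega

lemma top_low {M : Matching n} {x i : Fin (2 * n)} (hx : Top M x) (hi : x < i) (hne : i ≠ M.m x) :
    x < M.m i := by
  rcases lt_trichotomy x (M.m i) with h | h | h
  · exact h
  · exact absurd (by rw [h, M.inv]) hne
  · have := hx (M.m i) h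
    rw [M.inv] at this
    exact absurd this (not_lt.2 hi.le)

theorem t_KST : S_FL1 → S_FL2 → S_POT → S_TOP → S_KST := by
  intro hF1 hF2 hP hT n hn h3 M hN x y hx hy hxy hne
  obtain ⟨ex, hxm, -⟩ := hT n M x hx
  obtain ⟨ey, hym, -⟩ := hT n M y hy
  have Nx := hN x
  have Ny := hN y
  have hxm' : (x : ℕ) < M.m x := hxm
  have hym' : (y : ℕ) < M.m y := hym
  have hmy2 := (M.m y).2
  -- the point `y + 1`
  obtain ⟨w, hw⟩ : ∃ w : Fin (2 * n), (w : ℕ) = y + 1 := ⟨⟨y + 1, by omega⟩, rfl⟩
  have hyw : y < w := by rw [Fin.lt_def]; omega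
  have hwm : w < M.m y := by rw [Fin.lt_def]; omega
  -- its partner
  have hq1 : M.m w < M.m y := by
    have h1 := M.nc y w hyw hwm
    rw [not_lt] at h1
    refine lt_of_le_of_ne h1 fun h => ?_
    have : w = y := by rw [← M.inv w, h, M.inv]
    exact absurd this (ne_of_gt hyw)
  have hq2 : y < M.m w := top_low hy hyw (ne_of_lt hwm)
  have hq3 : w < M.m w := by
    have h1 := M.ne w
    have h2 : (M.m w : ℕ) ≠ w := fun h => h1 (Fin.ext h)
    rw [Fin.lt_def] at hq2 ⊢
    omega
  obtain ⟨q, hq⟩ : ∃ q, M.m w = q := ⟨_, rfl⟩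
  rw [hq] at hq1 hq2 hq3
  have hq1' : (q : ℕ) < M.m y := hq1
  have hq3' : (w : ℕ) < q := hq3
  rcases hxy with h | h
  · -- `y + 1 = x + n`
    have hxy : x < y := by rw [Fin.lt_def]; omega
    have hb : M.m x < y := hy x hxy
    have hb' : (M.m x : ℕ) < y := hb
    obtain ⟨M2, R2⟩ := hF1 n M x (M.m x) y (M.m y) hxm hb hym rfl rfl
      fun i hi1 hi2 => ⟨top_gap hT hx hi1, hy i hi2⟩
    have P2 := (hP n hn M M2 x (M.m x) y (M.m y) hxm hb hym (by omega) (by omega) (by omega)
      (by omega) R2).2 (by omega)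
    rw [if_pos ex] at P2
    have ew : M2.m w = q := by
      rw [R2.rest w (ne_of_gt (hxy.trans hyw)) (ne_of_gt (hb.trans hyw)) (ne_of_gt hyw)
        (ne_of_lt hwm), hq]
    obtain ⟨M3, R3⟩ := hF2 n M2 x w q (M.m y) (hxy.trans hyw) hq3 hq1 ew R2.ad (by
      intro i hi1 hi2
      have hiy : (i : ℕ) ≤ y := by rw [Fin.lt_def] at hi2; omega
      by_cases h1 : i = M.m x
      · rw [h1, R2.bc]
        exact ⟨hxy, hyw⟩
      · by_cases h2 : i = y
        · have : M2.m y = M.m x := by rw [← R2.bc, M2.inv]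
          rw [h2, this]
          exact ⟨hxm, hb.trans hyw⟩
        · have h4 : (i : ℕ) ≠ y := fun h => h2 (Fin.ext h)
          have h3 : i < y := by rw [Fin.lt_def]; omega
          rw [R2.rest i (ne_of_gt hi1) h1 h2 (ne_of_lt (h3.trans hym))]
          exact ⟨top_low hx hi1 h1, (hy i h3).trans hyw⟩)
    have P3 := (hP n hn M3 M2 x w q (M.m y) (hxy.trans hyw) hq3 hq1 (by omega) (by omega)
      (by omega) (by omega) R3).1 (by omega)
    rw [if_pos ex] at P3
    refine ⟨M2, M3, ⟨x, M.m x, y, M.m y, hxm, hb, hym, by omega, by omega, by omega, by omega,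
      Or.inl R2⟩, ⟨x, w, q, M.m y, hxy.trans hyw, hq3, hq1, by omega, by omega, by omega, by omega,
      Or.inr R3⟩, ⟨x, by rw [R3.ab]; omega⟩, by omega⟩
  · -- `x = y + n + 1`
    have hyx : y < x := by rw [Fin.lt_def]; omega
    have hb : M.m y < x := hx y hyx
    have hb' : (M.m y : ℕ) < x := hb
    obtain ⟨M2, R2⟩ := hF1 n M y (M.m y) x (M.m x) hym hb hxm rfl rfl
      fun i hi1 hi2 => ⟨top_gap hT hy hi1, hx i hi2⟩
    have P2 := (hP n hn M M2 y (M.m y) x (M.m x) hym hb hxm (by omega) (by omega) (by omega)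
      (by omega) R2).2 (by omega)
    rw [if_pos ey] at P2
    have ew : M2.m w = q := by
      rw [R2.rest w (ne_of_gt hyw) (ne_of_lt hwm) (ne_of_lt (hwm.trans hb))
        (ne_of_lt (hwm.trans (hb.trans hxm))), hq]
    obtain ⟨M3, R3⟩ := hF1 n M2 w q (M.m y) x hq3 hq1 hb ew R2.bc (by
      intro i hi1 hi2
      have hyi : y < i := hyw.trans (hq3.trans hi1)
      rw [R2.rest i (ne_of_gt hyi) (ne_of_lt hi2) (ne_of_lt (hi2.trans hb))
        (ne_of_lt (hi2.trans (hb.trans hxm)))]
      constructor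
      · have h1 : y < M.m i := top_low hy hyi (ne_of_lt hi2)
        by_contra hc
        rw [not_lt] at hc
        rcases eq_or_lt_of_le hc with h2 | h2
        · have : i = w := by rw [← M.inv i, h2, ← hq, M.inv]
          exact absurd this (ne_of_gt (hq3.trans hi1))
        · have h5 : M.m i ≠ w := by
            intro h6
            have : i = q := by rw [← M.inv i, h6, hq]
            exact absurd this (ne_of_gt hi1)
          have h6 : (M.m i : ℕ) ≠ w := fun h => h5 (Fin.ext h)
          have h7 : w < M.m i := by rw [Fin.lt_def] at h1 ⊢; omega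
          have h8 := M.nc w (M.m i) h7 (by rw [hq]; exact h2)
          rw [M.inv, hq] at h8
          exact h8 hi1
      · have h1 := M.nc y i hyi hi2
        rw [not_lt] at h1
        refine lt_of_le_of_ne h1 fun h => ?_
        have : i = y := by rw [← M.inv i, h, M.inv]
        exact absurd this (ne_of_gt hyi))
    have P3 := (hP n hn M2 M3 w q (M.m y) x hq3 hq1 hb (by omega) (by omega)
      (by omega) (by omega) R3).1 (by omega)
    rw [if_neg (by omega : ¬ (w : ℕ) % 2 = 0)] at P3
    refine ⟨M2, M3, ⟨y, M.m y, x, M.m x, hym, hb, hxm, by omega, by omega, by omega, by omega,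
      Or.inl R2⟩, ⟨w, q, M.m y, x, hq3, hq1, hb, by omega, by omega, by omega, by omega,
      Or.inl R3⟩, ⟨w, by rw [R3.ad]; omega⟩, by omega⟩

end Pool.Agent.E8helper10.CF
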